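import Pool.Agent.PCL.Stmts

/-!
Row FAC of the squad PCL: coordinates with respect to a basis of a lattice.
-/

set_option autoImplicit false

namespace Pool.Agent.PCL.H39

open Pool.Agent.PCL

theorem fac : FacStmt := by
  intro ι m L b z hz
  have hG : ∀ j, z j = ∑ k, (Matrix.of fun k j => b.repr ⟨z j, hz j⟩ k) k j • (b k : ι → ℤ) := by
    intro j
    have h := congrArg (Subtype.val) (b.sum_repr ⟨z j, hz j⟩)
    rw [Submodule.coe_sum] at h
    rw [← show (⟨z j, hz j⟩ : L).val = z j from rfl, ← h]
    rfl
  refine ⟨Matrix.of fun k j => b.repr ⟨z j, hz j⟩ k, hG, fun s => ?_, fun hli hdet => ?_⟩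
  · unfold mn
    rw [← Matrix.det_mul]
    congr 1
    ext i j
    rw [Matrix.mul_apply, Matrix.of_apply]
    conv_lhs => rw [hG j]
    rw [Finset.sum_apply]
    refine Finset.sum_congr rfl fun k _ => ?_
    simp only [Matrix.of_apply, Pi.smul_apply, smul_eq_mul]
    ring
  · obtain ⟨v, hv0, hv⟩ := Matrix.exists_mulVec_eq_zero_iff.mpr hdet
    apply hv0
    have h := Fintype.linearIndependent_iff.mp hli v ?_
    · funext i
      exact h i
    · have e : ∑ j, v j • z j =
          ∑ k, (Matrix.mulVec (Matrix.of fun k j => b.repr ⟨z j, hz j⟩ k) v) k •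
            (b k : ι → ℤ) := by
        calc ∑ j, v j • z j = ∑ j, ∑ k, (v j * (Matrix.of fun k j => b.repr ⟨z j, hz j⟩ k) k j) •
              (b k : ι → ℤ) := by
              refine Finset.sum_congr rfl fun j _ => ?_
              conv_lhs => rw [hG j]
              rw [Finset.smul_sum]
              refine Finset.sum_congr rfl fun k _ => ?_
              rw [smul_smul]
          _ = ∑ k, ∑ j, (v j * (Matrix.of fun k j => b.repr ⟨z j, hz j⟩ k) k j) •
              (b k : ι → ℤ) := Finset.sum_comm
          _ = _ := by
              refine Finset.sum_congr rfl fun k _ => ?_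
              rw [← Finset.sum_smul, Matrix.mulVec, dotProduct]
              congr 1
              refine Finset.sum_congr rfl fun j _ => ?_
              ring
      rw [e, hv]
      simp

end Pool.Agent.PCL.H39
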