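import Pool.Agent.PCL.Stmts

/-!
Row PPW of the squad PCL: few `a` have a large prime power of a small prime dividing all `f_s(a)`.
-/

set_option autoImplicit false

namespace Pool.Agent.PCL.H39

open Pool.Agent.PCL

/-- the exponents -/
lemma exps {p Z M : ℕ} (hp : 2 ≤ p) (hZ : 2 ≤ Z) (hM : 1 ≤ M) :
    ∃ j t : ℕ, Z ^ M ≤ p ^ j ∧ (∀ j', Z ^ M ≤ p ^ j' → j ≤ j') ∧ 1 ≤ t ∧ (t - 1) * M < j ∧
      Z ≤ p ^ t := by
  have hex : ∃ j, Z ^ M ≤ p ^ j := by
    refine ⟨Z ^ M, ?_⟩
    exact (Nat.lt_pow_self (by omega)).le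
  classical
  have hj := Nat.find_spec hex
  have hmin : ∀ j', Z ^ M ≤ p ^ j' → Nat.find hex ≤ j' := fun j' h => Nat.find_min' hex h
  set j := Nat.find hex with hjdef
  have hj1 : 1 ≤ j := by
    by_contra h0
    have h00 : j = 0 := by omega
    rw [h00, pow_zero] at hj
    have h2 : 2 ^ 1 ≤ Z ^ M := (Nat.pow_le_pow_left hZ 1).trans (Nat.pow_le_pow_right (by omega) hM)
    omega
  obtain ⟨t, ht1, ht2, ht3⟩ : ∃ t : ℕ, 1 ≤ t ∧ (t - 1) * M < j ∧ j ≤ t * M := by
    have h := Nat.div_mul_le_self (j - 1) M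
    have h' := Nat.lt_div_mul_add (a := j - 1) (b := M) (by omega)
    generalize (j - 1) / M = q at h h'
    refine ⟨q + 1, by omega, ?_, ?_⟩
    · rw [Nat.add_sub_cancel]
      omega
    · rw [add_mul, one_mul]
      omega
  refine ⟨j, t, hj, hmin, ht1, ht2, ?_⟩
  by_contra hlt
  push Not at hlt
  have h1 : (p ^ t) ^ M < Z ^ M := Nat.pow_lt_pow_left hlt (by omega)
  have h2 : p ^ j ≤ (p ^ t) ^ M := by
    rw [← pow_mul]
    exact Nat.pow_le_pow_right (by omega) ht3
  omega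

theorem ppw (hvdm : VdmStmt) (hcrc : CrcStmt) : PpwStmt := by
  intro m σ f R y Z A hP hR hm hZ hA
  classical
  have hM : 1 ≤ m * (m + 1) / 2 := by
    have : 2 ≤ m * (m + 1) := by nlinarith
    omega
  set M := m * (m + 1) / 2 with hMdef
  have hZ0 : (0 : ℝ) < Z := by
    have : 0 < Z := by omega
    exact_mod_cast this
  -- the pieces
  set Ap : ℕ → Finset ℤ := fun p => A.filter fun a =>
    ∃ j : ℕ, Z ^ M ≤ p ^ j ∧ ∀ s, ((p : ℤ) ^ j) ∣ (f s).eval a with hAp
  set T : Finset ℕ := (Finset.Icc 1 y).filter Nat.Prime with hT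
  have hcover : A ⊆ T.biUnion Ap := by
    intro a ha
    obtain ⟨p, j, hp, hpy, hj, hdiv⟩ := hA a ha
    rw [Finset.mem_biUnion]
    refine ⟨p, ?_, ?_⟩
    · rw [hT, Finset.mem_filter, Finset.mem_Icc]
      exact ⟨⟨hp.one_lt.le, hpy⟩, hp⟩
    · rw [hAp, Finset.mem_filter]
      exact ⟨ha, j, hj, hdiv⟩
  have hpiece : ∀ p ∈ T, ((Ap p).card : ℝ) ≤ (m : ℝ) * ((2 * (R : ℝ) + 1) / Z + 1) := by
    intro p hpT
    rw [hT, Finset.mem_filter] at hpT
    have hp := hpT.2
    obtain ⟨j, t, hj, hmin, ht1, ht2, hZt⟩ := exps (p := p) (Z := Z) (M := M) hp.two_le hZ hM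
    have h1 := hcrc m R {p ^ t} (Ap p) (by
        intro q hq
        rw [Finset.mem_singleton] at hq
        rw [hq]
        exact pow_pos hp.pos t)
      (by
        intro q hq q' hq' hne
        rw [Finset.mem_singleton] at hq hq'
        exact absurd (hq.trans hq'.symm) hne)
      (by
        intro a ha
        exact hR a (Finset.mem_of_mem_filter a ha))
      (by
        intro q hq B hB hinc
        rw [Finset.mem_singleton] at hq
        refine hvdm m σ f p j t hp ht1 ht2 hP.deg (hP.prm p hp) B ?_ ?_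
        · intro a ha s
          have ha' := hB ha
          rw [hAp, Finset.mem_filter] at ha'
          obtain ⟨-, j', hj', hdiv⟩ := ha'
          exact (pow_dvd_pow _ (hmin j' hj')).trans (hdiv s)
        · intro a ha b hb hab
          apply hinc a ha b hb
          rw [hq]
          push_cast
          exact hab)
    rw [Finset.card_singleton, pow_one, Finset.prod_singleton] at h1
    refine h1.trans ?_
    have hle : (Z : ℝ) ≤ ((p ^ t : ℕ) : ℝ) := by exact_mod_cast hZt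
    have hR0 : (0 : ℝ) ≤ 2 * (R : ℝ) + 1 := by positivity
    gcongr
  have hcT : T.card ≤ y := by
    have h := Finset.card_filter_le (Finset.Icc 1 y) Nat.Prime
    rw [Nat.card_Icc] at h
    rw [hT]
    omega
  have hb0 : (0 : ℝ) ≤ (m : ℝ) * ((2 * (R : ℝ) + 1) / Z + 1) := by positivity
  calc (A.card : ℝ) ≤ ((T.biUnion Ap).card : ℝ) := by
        exact_mod_cast Finset.card_le_card hcover
    _ ≤ ∑ p ∈ T, ((Ap p).card : ℝ) := by
        exact_mod_cast Finset.card_biUnion_le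
    _ ≤ ∑ p ∈ T, (m : ℝ) * ((2 * (R : ℝ) + 1) / Z + 1) := Finset.sum_le_sum hpiece
    _ = (T.card : ℝ) * ((m : ℝ) * ((2 * (R : ℝ) + 1) / Z + 1)) := by
        rw [Finset.sum_const, nsmul_eq_mul]
    _ ≤ (y : ℝ) * ((m : ℝ) * ((2 * (R : ℝ) + 1) / Z + 1)) := by
        have : (T.card : ℝ) ≤ y := by exact_mod_cast hcT
        gcongr

end Pool.Agent.PCL.H39
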